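import Pool.Agent.Helper5_Frey.Monic

/-!
# Frey's inequality in every pencil `y ^ 2 = f x + c` with distinct critical values

All definitions used by the statement are in `Pool.Agent.Helper5_Frey.Defs`.
-/

namespace Pool.Agent.Results.MP_c59389_nt.MorsePencils

open Helper5Frey

/-- Let `n ≥ 3` and `g = (n - 1) / 2`, rounded down. There is a constant `C₀` such that for all
`κ > 0` and `η > 0` some `C` has the following property. Let `f = b_0 x + ... + b_(n-1) x ^ n` be a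
polynomial of degree `n` with integer coefficients and `n - 1` distinct critical values, let `H` be
a natural number and `ρ ≥ 1` a real number with `|b_i| ρ ^ (i + 1) ≤ H` for all `i`. Then for all
but at most `C * (H / ρ ^ (g + 1)) ^ (g / (2 κ)) * H ^ η` of the integers `c` with `|c| ≤ H` the
polynomial `f + c` has no multiple root and satisfies `hW (f + c) ≤ κ log (N* (f + c)) + C₀`. -/
theorem result (n : ℕ) (hn : 3 ≤ n) : ∃ C₀ : ℝ, ∀ κ : ℝ, 0 < κ → ∀ η : ℝ, 0 < η →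
    ∃ C : ℝ, ∀ b : Fin n → ℤ,
      (poly (Fin.cons 0 b : Fin (n + 1) → ℤ)).natDegree = n →
      Morse (poly (Fin.cons 0 b : Fin (n + 1) → ℤ)) →
      ∀ (H : ℕ) (ρ : ℝ), 1 ≤ ρ → (∀ i : Fin n, |(b i : ℝ)| * ρ ^ ((i : ℕ) + 1) ≤ H) →
        ({c : ℤ | |c| ≤ H ∧
          ¬ FreyHolds n κ C₀ (poly (Fin.cons c b : Fin (n + 1) → ℤ))}.ncard : ℝ) ≤
          C * ((H : ℝ) / ρ ^ ((n - 1) / 2 + 1)) ^ ((((n - 1) / 2 : ℕ) : ℝ) / (2 * κ)) *
            (H : ℝ) ^ η := by
  obtain ⟨m, rfl⟩ : ∃ m, n = m + 1 := ⟨n - 1, by omega⟩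
  have hm : 2 ≤ m := by omega
  have hg : (m + 1 - 1) / 2 = m / 2 := by omega
  rw [hg]
  obtain ⟨C₀, hC₀⟩ := exists_heightBound (m + 1) (m / 2) (by omega) (by omega)
  refine ⟨C₀, fun κ hκ η hη => ?_⟩
  obtain ⟨C, _, h⟩ := line_frey hm hC₀ hκ hη
  refine ⟨C, fun b hdeg hM H ρ hρ hb => ?_⟩
  have hb0 : b (Fin.last m) ≠ 0 := by
    have := last_ne_zero_of_natDegree (by omega) (Fin.cons 0 b : Fin (m + 1 + 1) → ℤ) hdeg
    rwa [← Fin.succ_last, Fin.cons_succ] at this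
  have hf : poly (Fin.cons 0 b : Fin (m + 1 + 1) → ℤ) = f0 b := by
    rw [poly_cons]
    simp
  rw [hf] at hM
  have hMv : Mv b ≠ 0 := Mv_ne_zero_of_morse b hb0 hM
  have hH : 1 ≤ H := by
    by_contra hcon
    have h0 : H = 0 := by omega
    have h1 := hb (Fin.last m)
    rw [h0, Nat.cast_zero] at h1
    have h2 : 0 < |(b (Fin.last m) : ℝ)| := abs_pos.mpr (by exact_mod_cast hb0)
    have h3 : 0 < |(b (Fin.last m) : ℝ)| * ρ ^ (((Fin.last m : Fin (m + 1)) : ℕ) + 1) := by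
      have : 0 < ρ := by linarith
      positivity
    exact absurd h1 (not_le.mpr h3)
  have hfin : {c : ℤ | |c| ≤ H ∧
      ¬ FreyHolds (m + 1) κ C₀ (poly (Fin.cons c b : Fin (m + 1 + 1) → ℤ))}.Finite := by
    apply Set.Finite.subset (Finset.Icc (-(H : ℤ)) H).finite_toSet
    intro c hc
    rw [Finset.mem_coe, Finset.mem_Icc, ← abs_le]
    exact hc.1
  rw [Set.ncard_eq_toFinset_card _ hfin]
  apply h b hMv H hH ρ hρ hb
  · intro c hc
    rw [Set.Finite.mem_toFinset] at hc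
    rw [Finset.mem_Icc, ← abs_le]
    exact hc.1
  · intro c hc
    rw [Set.Finite.mem_toFinset] at hc
    exact hc.2

end Pool.Agent.Results.MP_c59389_nt.MorsePencils
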